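import Pool.Agent.Helper274_OB.MainW

set_option autoImplicit false

/-!
# An exponential proportion of all orders of bounded consecutive prime gaps

For every `k ≥ 1` at least `k! / 2 ^ (22 k)` of the `k!` orders of `k` numbers are the orders of the
entries of a vector of gaps which occurs for infinitely many blocks of `k + 1` consecutive primes.  The
vectors have the form `q d` with `d` bounded in terms of `k` (and `F`) alone, where `q ≥ 1` is arbitrary,
the primes are all in a prescribed residue class modulo `q`, and the gaps can be made to grow faster
than any given function `F`.

Proof.  (1) A Maynard-Tao theorem for a tuple of `2 ^ B` linear forms, for the functional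
`|P| - ∑ w(x, y)`, where `P` is the set of the forms `x` with a prime value, the sum is over the pairs of
different elements of `P`, and `w ≥ 0` are arbitrary weights with row sums at most `2 ^ B / (32 z)`: it
takes values `≥ z / 2` if `B` is large for given `z` (`Pool.Agent.Helper274_OB.core_fewW`).  (2) The
weights are taken from a binary tree on the forms: `w(x, y)` is the number of the levels, apart from
the top `log z + O(1)` ones, at which `x` and `y` are close.  The distances between neighbouring shifts
are ordered like a given permutation of the `2 ^ B - 1` boundaries that respects the levels of the tree;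
then `k` consecutive gaps between primes are ordered like this permutation at `k` boundaries whose levels
have sum at most `2 k` (`Pool.Agent.Helper274_OB.blockG`).  (3) Counting of these permutations,
weighted with the levels (`Pool.Agent.Helper274_RO.many_patterns`).
-/

namespace Pool.Agent.Results.MP_3ec731_nt.OrdersOfBoundedGaps

/-- The `i`-th prime, numbered from `p 0 = 2`. -/
noncomputable def p (i : ℕ) : ℕ := Nat.nth Nat.Prime i

/-- The orders `π` of `k` gaps for which there is a vector `d` with entries at most `L`, ordered like
`π 0, …, π (k - 1)` (so they are different), a larger entry being larger than the value of `F` at each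
smaller entry, such that for infinitely many `n` the primes `p n, …, p (n + k)` are in the class of `a`
modulo `q` and the `k` gaps between them are `q d 0, …, q d (k - 1)`. -/
def Orders (q a k : ℕ) (F : ℕ → ℕ) (L : ℕ) : Set (Equiv.Perm (Fin k)) :=
  {π | ∃ d : Fin k → ℕ, (∀ i, d i ≤ L) ∧ (∀ i j, π i < π j → d i < d j ∧ F (d i) < d j) ∧
    {n : ℕ | p n ≡ a [MOD q] ∧ ∀ i : Fin k, p (n + i + 1) = p (n + i) + q * d i}.Infinite}

/-- For all `k ≥ 1` and every function `F` there is `L` such that for all `q ≥ 1` and all `a` prime to `q`
at least `k! / (2 ^ 22) ^ k` of the `k!` orders are realised, infinitely often, by `k` consecutive prime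
gaps that are bounded by `q L`. -/
theorem result (k : ℕ) (hk : 1 ≤ k) (F : ℕ → ℕ) : ∃ L : ℕ, ∀ q a : ℕ, 1 ≤ q → Nat.Coprime a q →
    (k.factorial : ℝ) / (2 ^ 22) ^ k ≤ ((Orders q a k F L).ncard : ℝ) := by
  obtain ⟨L, hL⟩ := Pool.Agent.Helper274_OB.orders_bounded k hk F
  exact ⟨L, fun q a hq haq => hL q a hq haq⟩

end Pool.Agent.Results.MP_3ec731_nt.OrdersOfBoundedGaps
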