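import Mathlib
import Pool.Agent.H35_PP.PartB

/-!
# The proportion of the admissible patterns which are realised by consecutive primes

For every `k ≥ 2` and every large finite set `V` of natural numbers (arbitrary, for example an interval, or a
set with huge gaps), at least the proportion `(C k) ^ (-k)` of the admissible `k`-element subsets `H` of `V` is
realised as consecutive primes infinitely often, where `C` is an absolute constant; the same holds in residue
classes, and how large `V` has to be depends on `k` alone.

Proof. The averaging argument of `Pool.Agent.TH779.Ord` for the sieve of Maynard and Tao: if `T = 20 k²` groups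
of `K` shifts (`K` large) are given, then there are exact patterns of primes among these shifts for which the
number of the groups with exactly one prime exceeds `(k - 1) (1 + the number of the groups with several primes)`;
if the groups follow each other on the line, this gives `k` consecutive primes in different groups. By the box
theorem of Erdős the groups can be chosen close to almost every `T`-element set in the sense of hypergraphs, so
that a `T`-element subset without a realised `k`-element subset is rare among the subsets which miss a residue
class modulo each prime up to `T`. Only the primes between `k` and `20 k²` have to be removed in addition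
to those needed for the admissibility of `H`, and they cost a factor which is exponential in `k` by the theorem
of Mertens.
-/

set_option autoImplicit false

open Finset

/-- `H` is admissible: it misses a residue class modulo every prime. -/
def Pool.Agent.Results.MP_3ec731_nt.ProportionOfPatterns.Admissible (H : Finset ℕ) : Prop :=
  ∀ p : ℕ, p.Prime → ∃ r : ℕ, ∀ h ∈ H, ¬ p ∣ r + h

/-- There are infinitely many `n` in the class of `a` modulo `q` which realise `H` as consecutive primes: the
numbers `n + h`, `h ∈ H`, are prime, and no other number between the smallest and the largest of them is prime. -/
def Pool.Agent.Results.MP_3ec731_nt.ProportionOfPatterns.Realised (q a : ℕ) (H : Finset ℕ) : Prop :=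
  {n : ℕ | n ≡ a [MOD q] ∧ (∀ h ∈ H, (n + h).Prime) ∧
    ∀ m : ℕ, (∃ h ∈ H, n + h ≤ m) → (∃ h ∈ H, m ≤ n + h) → m.Prime → ∃ h ∈ H, m = n + h}.Infinite

open Pool.Agent.Results.MP_3ec731_nt.ProportionOfPatterns in
open Classical in
/-- There is an absolute constant `C` such that for every `k ≥ 2`, every set `V` of at least `N₀ k` natural
numbers and every residue class `a` modulo `q` such that all `a + v`, `v ∈ V`, are prime to `q` (no condition
for `q = 1`), at least the proportion `(C k) ^ (-k)` of the admissible `k`-element subsets of `V` is realised as
consecutive primes by infinitely many `n` congruent to `a` modulo `q`. -/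
theorem Pool.Agent.Results.MP_3ec731_nt.ProportionOfPatterns.result :
    ∃ C : ℝ, 0 < C ∧ ∀ k : ℕ, 2 ≤ k → ∃ N₀ : ℕ, ∀ V : Finset ℕ, N₀ ≤ V.card →
      ∀ q a : ℕ, 1 ≤ q → (∀ v ∈ V, Nat.Coprime (a + v) q) →
        (((V.powersetCard k).filter Admissible).card : ℝ) ≤
          (C * k) ^ k * ((V.powersetCard k).filter (fun H => Admissible H ∧ Realised q a H)).card :=
  Pool.Agent.H35_PP.partB
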