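import Pool.Agent.helper616_TM.Main1
import Pool.Agent.helper616_RP.Var

/-!
# Exact patterns of prime values of almost every real polynomial

Let `9 (r + 1) < 2 m + 6`. For almost every real polynomial `f` of degree `m` with positive leading coefficient, every
set `H` of at most `r` integers in `[0, L)` is realised exactly: the number of the `n < N` for which `⌊f (n + h)⌋`,
`0 ≤ h < L`, is prime if and only if `h ∈ H`, is asymptotically `N / (m log N) ^ |H|`.

Proof: the second moment of `∏ log ⌊f (n + s i)⌋` (over the prime values) over the coefficients of `f`. For `n` and `n'`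
which are not too close the coefficients can be moved in such a direction that only one of the values
`f (n + s i)`, `f (n' + s i)` changes (Lagrange interpolation), and the primes in almost all intervals of length
`x ^ (1 / 3 + ε)` are used for this one.
-/

set_option autoImplicit false

open Filter Topology MeasureTheory

namespace Pool.Agent.Results.MP_3ec731_nt.RandomPolynomialPatterns

/-- The value at `x` of the polynomial with the coefficients `a 0, …, a m`. -/
noncomputable def value {m : ℕ} (a : Fin (m + 1) → ℝ) (x : ℕ) : ℝ := ∑ k, a k * (x : ℝ) ^ (k : ℕ)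

/-- The number of the `n < N` such that, for `0 ≤ h < L`, the integer part of `f (n + h)` is prime exactly for the
elements `h` of `H`; `f` has the coefficients `a`. -/
noncomputable def realised {m : ℕ} (a : Fin (m + 1) → ℝ) (H : Finset ℕ) (L N : ℕ) : ℕ :=
  Set.ncard {n : ℕ | n < N ∧ ∀ h < L, (⌊value a (n + h)⌋₊).Prime ↔ h ∈ H}

/-- If `9 (r + 1) < 2 m + 6`, then for almost all polynomials of degree `m` with positive leading coefficient all
sets `H` of at most `r` elements of `[0, L)` are realised for `~ N / (m log N) ^ |H|` integers `n < N`. -/
theorem result (m r : ℕ) (hr : 9 * (r + 1) < 2 * m + 6) :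
    ∀ᵐ a : Fin (m + 1) → ℝ, 0 < a (Fin.last m) → ∀ (H : Finset ℕ) (_ : H.card ≤ r) (L : ℕ) (_ : ∀ h ∈ H, h < L),
      Tendsto (fun N : ℕ => (realised a H L N : ℝ) / (N / (m * Real.log N) ^ H.card)) atTop (𝓝 1) :=
  Pool.Agent.helper616_TM.patterns Pool.Agent.helper616_RP.t_VAR m r hr

end Pool.Agent.Results.MP_3ec731_nt.RandomPolynomialPatterns
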