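import Pool.Agent.Helper274_OB.DualX

set_option autoImplicit false

/-!
# Spread distributions on the patterns that are realised by consecutive primes

Let `V` be an arbitrary finite admissible set of natural numbers and `m ≤ log |V| / 700`.  There is a
probability distribution on the `m`-element subsets `H` of `V` that are realised as consecutive primes
infinitely often such that for ALL pairs `u ≠ v` of elements of `V` the random pattern contains `u` and
`v` with probability at most `17 m² / |V|²`.  For every distribution on `m`-element subsets of `V` some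
pair has probability at least `m (m - 1) / (|V| (|V| - 1))`, so that this is optimal up to the factor.
By averaging: for every weight function `w ≥ 0` on the pairs of elements of `V` there is a realised
pattern with `m` elements whose weight is at most `17 m² / |V|²` times the total weight; in particular for
every graph on `V` with fewer than `|V|² / (17 m²)` edges there are `m` consecutive primes `n + v`, `v ∈ V`,
such that no two of the `v` are joined by an edge.

Proof.  The Maynard-Tao sieve for the functional `|P| - lam w(P)`, where `P` is the set of the `v ∈ V` with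
`n + v` prime and `w(P)` is the sum of the weights of the pairs in `P`, gives exact patterns `P` with
`|P| - lam w(P) ≥ m` if `lam = |V|² / (17 m w(V))`; one of the blocks of `m` consecutive elements of `P` has
weight at most `m / lam` (`Pool.Agent.Helper274_OB.pat_weight`).  The distribution is obtained from the
weights by the duality of linear programming (`Pool.Agent.Helper274_OB.duality`).
-/

open Finset

namespace Pool.Agent.Results.MP_3ec731_nt.SpreadPatterns

/-- `V` is admissible: for every prime `p` some translate of `V` contains no multiple of `p`. -/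
def Admissible (V : Finset ℕ) : Prop :=
  ∀ p : ℕ, p.Prime → ∃ r : ℕ, ∀ v ∈ V, ¬ p ∣ r + v

/-- There are infinitely many `n` in the class of `a` modulo `q` which realise `H` as consecutive primes: the
numbers `n + h`, `h ∈ H`, are prime, and no other number between the smallest and the largest of them
is prime. -/
def Realised (q a : ℕ) (H : Finset ℕ) : Prop :=
  {n : ℕ | n ≡ a [MOD q] ∧ (∀ h ∈ H, (n + h).Prime) ∧
    ∀ y : ℕ, (∃ h ∈ H, h ≤ y) → (∃ h ∈ H, y ≤ h) → (n + y).Prime → y ∈ H}.Infinite

open Classical in
/-- Let `m ≥ 1`, let `V` be admissible with `log |V| ≥ 700 m`, `q ≥ 1`, and let all `a + v`, `v ∈ V`, be prime to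
`q` (no condition for `q = 1`).  There is a probability distribution `μ` on the subsets `H` of `V`, concentrated
on those with `m` elements that are realised as consecutive primes by infinitely many `n ≡ a (mod q)`, such
that the probability of `u ∈ H` and `v ∈ H` is at most `17 m² / |V|²` for all `u ≠ v` in `V`. -/
theorem result (m : ℕ) (hm : 1 ≤ m) (V : Finset ℕ) (hV : 700 * m ≤ Real.log V.card)
    (hadm : Admissible V) (q a : ℕ) (hq : 1 ≤ q) (haq : ∀ v ∈ V, Nat.Coprime (a + v) q) :
    ∃ μ : Finset ℕ → ℝ, (∀ H, 0 ≤ μ H) ∧
      (∀ H, μ H ≠ 0 → H ⊆ V ∧ H.card = m ∧ Realised q a H) ∧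
      ∑ H ∈ V.powerset, μ H = 1 ∧
      ∀ u ∈ V, ∀ v ∈ V, u ≠ v →
        ∑ H ∈ V.powerset.filter (fun H => u ∈ H ∧ v ∈ H), μ H ≤ 17 * (m : ℝ) ^ 2 / (V.card : ℝ) ^ 2 := by
  obtain ⟨μ, h1, h2, h3, h4⟩ := Pool.Agent.Helper274_OB.pat_dist m hm V hV hadm q a hq haq
  refine ⟨μ, h1, fun H hH => h2 H hH, h3, fun u hu v hv huv => ?_⟩
  refine le_trans (le_of_eq ?_) (h4 u hu v hv huv)
  congr

end Pool.Agent.Results.MP_3ec731_nt.SpreadPatterns
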